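import Pool.Agent.H520PS.T1600a
import Pool.Agent.H520PS.T1600b
import Pool.Agent.H520PS.T1600c

/-!
# MP_81964c_an: an explicit upper bound for the constant in Atkinson's power sum inequality

There are 1600 complex numbers `z_1 = 1, z_2, …, z_1600` all of whose power sums
`S_1, …, S_1600` have modulus at most `0.687677`.  Hence `c^* ≤ M_1600 ≤ 0.687677`.
-/

namespace Pool.Agent.Results.MP_81964c_an.UpperBound

/-- `M_n` of the problem (`n ≥ 1`): the infimum over all `z_1 = 1, z_2, …, z_n` of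
`max_{1 ≤ k ≤ n} |S_k|` (the index set `Fin n` is `0, …, n-1`, so `z 0` is the problem's `z_1`
and `k : Fin n` stands for the exponent `k + 1`). -/
noncomputable def M (n : ℕ) [NeZero n] : ℝ :=
  ⨅ z : {z : Fin n → ℂ // z 0 = 1}, ⨆ k : Fin n, ‖∑ i, z.1 i ^ ((k : ℕ) + 1)‖

/-- `c^* = inf_{n ≥ 1} M_n`. -/
noncomputable def cstar : ℝ := ⨅ m : ℕ, M (m + 1)

open H520PS H520PS.D1600 in
lemma exists_config : ∃ z : Fin 1600 → ℂ, z 0 = 1 ∧
    ∀ k : ℕ, 1 ≤ k → k ≤ 1600 → ‖∑ i, z i ^ k‖ ≤ 0.687677 := by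
  obtain ⟨z, hz0, hz⟩ := sound2 L m d1 d2 B C C' sr si gr gi rr ri (by decide +kernel)
    (by decide +kernel) (by decide +kernel) hs hs' hr hr' b1 b2 b3 b4 b5 b6 hN hB hL0 k1 k2 hL hF
  refine ⟨z, hz0, fun k hk1 hk2 => (hz k hk1 hk2).trans ?_⟩
  norm_num [C, d1]

/-- The power sums of a configuration with `z 0 = 1` bound `M_n` from above. -/
lemma M_le (n : ℕ) [NeZero n] (c : ℝ) (z : Fin n → ℂ) (hz : z 0 = 1)
    (h : ∀ k : ℕ, 1 ≤ k → k ≤ n → ‖∑ i, z i ^ k‖ ≤ c) : M n ≤ c := by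
  have hb : BddBelow (Set.range fun z : {z : Fin n → ℂ // z 0 = 1} =>
      ⨆ k : Fin n, ‖∑ i, z.1 i ^ ((k : ℕ) + 1)‖) := by
    refine ⟨0, ?_⟩
    rintro _ ⟨w, rfl⟩
    exact Real.iSup_nonneg fun k => norm_nonneg _
  refine (ciInf_le hb ⟨z, hz⟩).trans ?_
  have : Nonempty (Fin n) := ⟨0⟩
  exact ciSup_le fun k => h _ (by omega) k.2

lemma M_nonneg (n : ℕ) [NeZero n] : 0 ≤ M n :=
  Real.iInf_nonneg fun _ => Real.iSup_nonneg fun _ => norm_nonneg _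

/-- **Explicit upper bound for `c^*`.**  `c^* ≤ M_1600 ≤ 0.687677`, and the bound on `M_1600` is
witnessed by a configuration: some `z_1 = 1, z_2, …, z_1600 ∈ ℂ` have `|S_k| ≤ 0.687677` for all
`1 ≤ k ≤ 1600`. -/
theorem result :
    (∃ z : Fin 1600 → ℂ, z 0 = 1 ∧
      ∀ k : ℕ, 1 ≤ k → k ≤ 1600 → ‖∑ i, z i ^ k‖ ≤ 0.687677) ∧
    cstar ≤ M 1600 ∧ M 1600 ≤ 0.687677 := by
  obtain ⟨z, hz0, hz⟩ := exists_config
  refine ⟨⟨z, hz0, hz⟩, ?_, M_le 1600 _ z hz0 hz⟩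
  refine ciInf_le (f := fun m : ℕ => M (m+1)) ⟨0, ?_⟩ 1599
  rintro _ ⟨w, rfl⟩
  exact M_nonneg _

end Pool.Agent.Results.MP_81964c_an.UpperBound
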